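import Mathlib

/-!
# The conjectured bound for the modified EGZ constants fails for `n = 3`, `t = 1`, `d = 3`

Take every point of a 9-point cap of `(ℤ/3)^3` with multiplicity two. This is a zero-sum sequence
of length 18 without a zero-sum subsequence of length 3, whereas the conjectured bound is 17.
-/

set_option autoImplicit false

namespace Pool.Agent.Results.MP_b34cfe_co.Refuted

/-- The modified EGZ constant `s'_m(G)`: the least `L` such that every zero-sum sequence over `G` of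
length at least `L` has a zero-sum subsequence of length exactly `m`. -/
noncomputable def modEGZ (G : Type*) [AddCommGroup G] (m : ℕ) : ℕ :=
  sInf {L | ∀ S : Multiset G, L ≤ Multiset.card S → S.sum = 0 →
    ∃ T ≤ S, Multiset.card T = m ∧ T.sum = 0}

/-- `ℓ(n, d)`: the least integer `ℓ ≥ 2 ^ d` that does not divide `n`. -/
noncomputable def ell (n d : ℕ) : ℕ := sInf {l | 2 ^ d ≤ l ∧ ¬ l ∣ n}

/-- The sequence: nine points of a cap, each of multiplicity two. -/
def seq : Multiset (Fin 3 → ZMod 3) :=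
  {![0, 0, 0], ![0, 0, 1], ![0, 1, 0], ![0, 1, 1], ![1, 0, 0], ![1, 0, 1], ![1, 1, 2], ![1, 2, 2],
    ![2, 1, 2]} +
  {![0, 0, 0], ![0, 0, 1], ![0, 1, 0], ![0, 1, 1], ![1, 0, 0], ![1, 0, 1], ![1, 1, 2], ![1, 2, 2],
    ![2, 1, 2]}

theorem seq_card : Multiset.card seq = 18 := by decide

theorem seq_sum : seq.sum = 0 := by decide +kernel

theorem seq_free : ∀ T ∈ Multiset.powersetCard 3 seq, T.sum ≠ 0 := by decide +kernel

/-- The set in the definition of `s'_3((ℤ/3)^3)` is nonempty. -/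
theorem set_nonempty : {L | ∀ S : Multiset (Fin 3 → ZMod 3), L ≤ Multiset.card S → S.sum = 0 →
    ∃ T ≤ S, Multiset.card T = 3 ∧ T.sum = 0}.Nonempty := by
  classical
  refine ⟨55, fun S hS _ => ?_⟩
  -- some element has multiplicity at least `3`
  obtain ⟨g, hg⟩ : ∃ g, 3 ≤ S.count g := by
    by_contra hcon
    push Not at hcon
    have h1 : Multiset.card S = ∑ g : Fin 3 → ZMod 3, S.count g :=
      (Multiset.sum_count_eq_card (s := Finset.univ) (fun a _ => Finset.mem_univ a)).symm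
    have h2 : ∑ g : Fin 3 → ZMod 3, S.count g ≤ ∑ _g : Fin 3 → ZMod 3, 2 :=
      Finset.sum_le_sum fun g _ => by have := hcon g; omega
    have h3 : ∑ _g : Fin 3 → ZMod 3, 2 = 54 := by simp
    omega
  refine ⟨Multiset.replicate 3 g, Multiset.le_count_iff_replicate_le.1 hg,
    Multiset.card_replicate _ _, ?_⟩
  rw [Multiset.sum_replicate]
  funext i
  show (3 : ℕ) • g i = 0
  rw [nsmul_eq_mul, show ((3 : ℕ) : ZMod 3) = 0 by decide, zero_mul]

theorem modEGZ_ge : 19 ≤ modEGZ (Fin 3 → ZMod 3) 3 := by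
  refine le_csInf set_nonempty ?_
  intro L hL
  by_contra hlt
  push Not at hlt
  obtain ⟨T, hT, hc, h0⟩ := hL seq (by rw [seq_card]; omega) seq_sum
  exact seq_free T (Multiset.mem_powersetCard.2 ⟨hT, hc⟩) h0

theorem ell_eq : ell 3 3 = 8 := by
  have hmem : 8 ∈ {l | 2 ^ 3 ≤ l ∧ ¬ l ∣ 3} := ⟨by norm_num, by norm_num⟩
  exact le_antisymm (Nat.sInf_le hmem) (le_csInf ⟨8, hmem⟩ fun l hl => hl.1)

/-- **Q1 is false:** `s'_3((ℤ/3)^3) ≥ 19`, whereas the conjectured upper bound for `n = 3`, `t = 1`,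
`d = 3` is `(1 + 2^3 - 1) 3 - 8 + 1 = 17`. -/
theorem result :
    (19 ≤ modEGZ (Fin 3 → ZMod 3) (3 * 1) ∧ ((1 : ℤ) + 2 ^ 3 - 1) * 3 - ell 3 3 + 1 = 17) ∧
    ¬ ∀ n t d : ℕ, 0 < n → 0 < t → 0 < d →
      (modEGZ (Fin d → ZMod n) (n * t) : ℤ) ≤ ((t : ℤ) + 2 ^ d - 1) * n - ell n d + 1 := by
  have h1 : 19 ≤ modEGZ (Fin 3 → ZMod 3) (3 * 1) := modEGZ_ge
  have h2 : ((1 : ℤ) + 2 ^ 3 - 1) * 3 - ell 3 3 + 1 = 17 := by rw [ell_eq]; norm_num
  refine ⟨⟨h1, h2⟩, fun h => ?_⟩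
  have h3 := h 3 1 3 (by norm_num) (by norm_num) (by norm_num)
  have h4 : (19 : ℤ) ≤ (modEGZ (Fin 3 → ZMod 3) (3 * 1) : ℤ) := by exact_mod_cast h1
  have h5 := h4.trans h3
  rw [ell_eq] at h5
  norm_num at h5

end Pool.Agent.Results.MP_b34cfe_co.Refuted
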